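import Mathlib
import Pool.Graph.R_pool_sql_team_seeded_3997aac3.Q226.SER.Defs

set_option autoImplicit false

/-!
# Surjectivity of reduced norms and directed unions
-/

namespace Pool.Agent.H884.EC

open Polynomial IntermediateField Pool.Agent.Q226.SER

/-- A polynomial all of whose coefficients belong to a smaller field. -/
theorem lift_poly {K K' : Subfield ℂ} (p : K[X]) (h : ∀ i, ((p.coeff i : K) : ℂ) ∈ K') :
    ∃ p' : K'[X], (∀ i, ((p'.coeff i : K') : ℂ) = ((p.coeff i : K) : ℂ)) ∧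
      ∀ θ : ℂ, aeval θ p' = aeval θ p := by
  classical
  refine ⟨∑ i ∈ p.support, monomial i (⟨((p.coeff i : K) : ℂ), h i⟩ : K'), fun i => ?_,
    fun θ => ?_⟩
  · rw [finsetSum_coeff]
    simp only [coeff_monomial]
    rw [Finset.sum_ite_eq']
    split_ifs with hi
    · rfl
    · rw [notMem_support_iff.1 hi]
      rfl
  · rw [map_sum, aeval_def (R := K), eval₂_eq_sum, Polynomial.sum_def]
    simp only [aeval_monomial]
    rfl

/-- Surjectivity of the reduced norms passes to directed unions. -/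
theorem norms_directed {K : Subfield ℂ}
    (h : ∀ T : Finset ℂ, (∀ t ∈ T, t ∈ K) → ∃ K' : Subfield ℂ, K' ≤ K ∧ (∀ t ∈ T, t ∈ K') ∧
      ∀ N, NormsOnto N K' ℂ) (N : ℕ) : NormsOnto N K ℂ := by
  classical
  intro L d hLf _ hd _ B hB c
  obtain ⟨b, hb, hBb⟩ := hB
  have hspan : ∀ x : Matrix (Fin d) (Fin d) ℂ, x ∈ B ↔ ∃ γ : Fin d × Fin d → L,
      ∑ m, γ m • b m = x := by
    intro x
    rw [← Subalgebra.mem_toSubmodule, hBb, Submodule.mem_span_range_iff_exists_fun]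
  have hbB : ∀ j, b j ∈ B := fun j => by
    rw [← Subalgebra.mem_toSubmodule, hBb]
    exact Submodule.subset_span ⟨j, rfl⟩
  choose γ hγ using fun j l => (hspan _).mp (B.mul_mem (hbB j) (hbB l))
  obtain ⟨υ, hυ⟩ := (hspan _).mp B.one_mem
  let T : Finset ℂ := Finset.univ.image
      (fun q : (Fin d × Fin d) × (Fin d × Fin d) × (Fin d × Fin d) => (γ q.1 q.2.1 q.2.2 : ℂ)) ∪
    (Finset.univ.image (fun m => (υ m : ℂ)) ∪ {(c : ℂ)})
  have hTL : ∀ t ∈ T, t ∈ L := by
    intro t ht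
    simp only [T, Finset.mem_union, Finset.mem_image, Finset.mem_univ, true_and,
      Finset.mem_singleton] at ht
    rcases ht with ⟨q, rfl⟩ | ⟨m, rfl⟩ | rfl
    · exact (γ q.1 q.2.1 q.2.2).2
    · exact (υ m).2
    · exact c.2
  -- a primitive element
  obtain ⟨θ, hθ⟩ := Field.exists_primitive_element K L
  have hθL : K⟮(θ : ℂ)⟯ = L := by
    have h1 : lift K⟮θ⟯ = K⟮(θ : ℂ)⟯ := lift_adjoin_simple K L θ
    rw [← h1, hθ, lift_top]
  have hθi : IsIntegral K (θ : ℂ) := by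
    have : IsIntegral K θ := Algebra.IsIntegral.isIntegral θ
    exact this.algebraMap
  have hrep : ∀ t ∈ L, ∃ p : K[X], aeval (θ : ℂ) p = t := by
    intro t ht
    rw [← hθL, ← mem_toSubalgebra, adjoin_simple_toSubalgebra_of_isAlgebraic hθi.isAlgebraic,
      Algebra.adjoin_singleton_eq_range_aeval] at ht
    exact ht
  choose! P hP using hrep
  obtain ⟨K', hK'K, hK'T, hK'N⟩ := h
    ((minpoly K (θ : ℂ)).support.image (fun i => (((minpoly K (θ : ℂ)).coeff i : K) : ℂ)) ∪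
      T.biUnion fun t => (P t).support.image fun i => (((P t).coeff i : K) : ℂ)) (by
    intro t ht
    rw [Finset.mem_union, Finset.mem_image, Finset.mem_biUnion] at ht
    rcases ht with ⟨i, -, rfl⟩ | ⟨s, -, hs⟩
    · exact SetLike.coe_mem _
    · obtain ⟨i, -, rfl⟩ := Finset.mem_image.1 hs
      exact SetLike.coe_mem _)
  have hco : ∀ (p : K[X]), (∀ i ∈ p.support, ((p.coeff i : K) : ℂ) ∈ K') →
      ∀ i, ((p.coeff i : K) : ℂ) ∈ K' := by
    intro p hp i
    by_cases hi : i ∈ p.support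
    · exact hp i hi
    · rw [notMem_support_iff.1 hi]
      exact zero_mem _
  obtain ⟨q, hq1, hq2⟩ := lift_poly (K' := K') (minpoly K (θ : ℂ)) (hco _ fun i hi => hK'T _ (by
    rw [Finset.mem_union]
    exact Or.inl (Finset.mem_image_of_mem _ hi)))
  have hθ' : IsAlgebraic K' (θ : ℂ) := by
    refine ⟨q, ?_, by rw [hq2, minpoly.aeval]⟩
    rintro rfl
    have h1 := hq1 (minpoly K (θ : ℂ)).natDegree
    rw [(minpoly.monic hθi).coeff_natDegree, coeff_zero] at h1
    exact zero_ne_one h1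
  have hTm : ∀ t ∈ T, t ∈ K'⟮(θ : ℂ)⟯ := by
    intro t ht
    obtain ⟨p, -, hp2⟩ := lift_poly (K' := K') (P t) (hco _ fun i hi => hK'T _ (by
      rw [Finset.mem_union, Finset.mem_biUnion]
      exact Or.inr ⟨t, ht, Finset.mem_image_of_mem _ hi⟩))
    rw [← hP t (hTL t ht), ← hp2]
    exact algebra_adjoin_le_adjoin _ _ (aeval_mem_adjoin_singleton _ _)
  obtain ⟨L₀, hL₀⟩ : ∃ L₀, L₀ = K'⟮(θ : ℂ)⟯ := ⟨_, rfl⟩
  rw [← hL₀] at hTm
  have hfin : Module.Finite K' L₀ := by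
    rw [hL₀]
    exact adjoin.finiteDimensional hθ'.isIntegral
  have hL₀L : ∀ t ∈ L₀, t ∈ L := by
    have h1 : L₀.toSubfield ≤ L.toSubfield := by
      rw [hL₀, adjoin_toSubfield, Subfield.closure_le]
      rintro t (⟨s, rfl⟩ | rfl)
      · exact L.algebraMap_mem ⟨(s : ℂ), hK'K s.2⟩
      · exact θ.2
    intro t ht
    exact h1 ht
  have hγm : ∀ j l m, (γ j l m : ℂ) ∈ L₀ := fun j l m => hTm _ (by
    simp only [T, Finset.mem_union, Finset.mem_image, Finset.mem_univ, true_and]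
    exact Or.inl ⟨(j, l, m), rfl⟩)
  have hυm : ∀ m, (υ m : ℂ) ∈ L₀ := fun m => hTm _ (by
    simp only [T, Finset.mem_union, Finset.mem_image, Finset.mem_univ, true_and]
    exact Or.inr (Or.inl ⟨m, rfl⟩))
  have hcm : (c : ℂ) ∈ L₀ := hTm _ (by
    simp only [T, Finset.mem_union, Finset.mem_image, Finset.mem_univ, true_and]
    exact Or.inr (Or.inr (by simp)))
  have h2 : ∀ j l, b j * b l = ∑ m, (⟨γ j l m, hγm j l m⟩ : L₀) • b m := fun j l => (hγ j l).symm
  have h3 : (1 : Matrix (Fin d) (Fin d) ℂ) = ∑ m, (⟨υ m, hυm m⟩ : L₀) • b m := hυ.symm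
  have hm : ∀ x y, x ∈ Submodule.span L₀ (Set.range b) → y ∈ Submodule.span L₀ (Set.range b) →
      x * y ∈ Submodule.span L₀ (Set.range b) := by
    intro x y hx hy
    rw [Submodule.mem_span_range_iff_exists_fun] at hx hy
    obtain ⟨cx, rfl⟩ := hx
    obtain ⟨cy, rfl⟩ := hy
    rw [Finset.sum_mul_sum]
    refine Submodule.sum_mem _ fun j _ => Submodule.sum_mem _ fun l _ => ?_
    rw [smul_mul_smul_comm, h2]
    exact Submodule.smul_mem _ _ (Submodule.sum_mem _ fun m _ =>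
      Submodule.smul_mem _ _ (Submodule.subset_span ⟨m, rfl⟩))
  have ho : (1 : Matrix (Fin d) (Fin d) ℂ) ∈ Submodule.span L₀ (Set.range b) := by
    rw [h3]
    exact Submodule.sum_mem _ fun m _ =>
      Submodule.smul_mem _ _ (Submodule.subset_span ⟨m, rfl⟩)
  obtain ⟨z, hz, hzc⟩ := hK'N (max (Module.finrank K' L₀) d) L₀ d hfin (le_max_left _ _) hd
    (le_max_right _ _) (Submodule.toSubalgebra _ ho hm) ⟨b, hb, by ext; rfl⟩ ⟨c, hcm⟩
  rw [Submodule.mem_toSubalgebra, Submodule.mem_span_range_iff_exists_fun] at hz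
  obtain ⟨cz, rfl⟩ := hz
  refine ⟨_, (hspan _).mpr ⟨fun m => ⟨cz m, hL₀L _ (cz m).2⟩, rfl⟩, hzc⟩

end Pool.Agent.H884.EC
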