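import Pool.Agent.H884.EC.Defs
import Pool.Agent.H884.EC.Union

set_option autoImplicit false

/-!
# The construction of universal torsors
-/

namespace Pool.Agent.H884.EC

open Matrix Pool.Agent.Q226.SER

variable {n : ℕ} {X : Set (GL (Fin n) ℂ)}

/-- A countable field with surjective reduced norms over which `X` has no point. -/
def Good (X : Set (GL (Fin n) ℂ)) (K : Subfield ℂ) : Prop :=
  Countable K ∧ Norms K ∧ ¬ Point X K

theorem solvable_mono {K F F' : Subfield ℂ} (h : F ≤ F') {m : ℕ}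
    {σ : Finset (MvPolynomial (Fin m) K)} (hσ : Solvable σ F) : Solvable σ F' := by
  obtain ⟨a, ha, h1⟩ := hσ
  exact ⟨a, fun i => h (ha i), h1⟩

theorem mem_chain {c : ℕ → Subfield ℂ} (hc : Monotone c) (T : Finset ℂ)
    (hT : ∀ t ∈ T, t ∈ ⨆ i, c i) : ∃ i, ∀ t ∈ T, t ∈ c i := by
  classical
  induction T using Finset.induction_on with
  | empty => exact ⟨0, fun t ht => absurd ht (Finset.notMem_empty t)⟩
  | insert s T hs ih =>
    obtain ⟨i, hi⟩ := ih fun t ht => hT t (Finset.mem_insert_of_mem ht)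
    obtain ⟨j, hj⟩ := (Subfield.mem_iSup_of_directed hc.directed_le).1
      (hT s (Finset.mem_insert_self s T))
    refine ⟨max i j, fun t ht => ?_⟩
    rcases Finset.mem_insert.1 ht with rfl | ht
    · exact hc (le_max_right i j) hj
    · exact hc (le_max_left i j) (hi t ht)

/-- Increasing unions of good fields are good. -/
theorem good_union {c : ℕ → Subfield ℂ} (hc : Monotone c) (h : ∀ i, Good X (c i)) :
    Good X (⨆ i, c i) := by
  classical
  refine ⟨?_, ?_, ?_⟩
  · have h1 : ((⨆ i, c i : Subfield ℂ) : Set ℂ) = ⋃ i, (c i : Set ℂ) :=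
      Subfield.coe_iSup_of_directed hc.directed_le
    have h2 : (⋃ i, (c i : Set ℂ)).Countable := Set.countable_iUnion fun i => (h i).1
    rw [← h1] at h2
    exact h2
  · refine norms_directed fun T hT => ?_
    obtain ⟨i, hi⟩ := mem_chain hc T hT
    exact ⟨c i, le_iSup c i, hi, (h i).2.1⟩
  · rintro ⟨g, hg⟩
    obtain ⟨i, hi⟩ := mem_chain hc (Finset.univ.image fun p : Fin n × Fin n => (g.1 p.1 p.2 : ℂ))
      (by
        intro t ht
        obtain ⟨p, -, rfl⟩ := Finset.mem_image.1 ht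
        exact SetLike.coe_mem _)
    apply (h i).2.2
    let G : Matrix (Fin n) (Fin n) (c i) := Matrix.of fun p q => ⟨(g.1 p q : ℂ), hi _
      (Finset.mem_image.2 ⟨(p, q), Finset.mem_univ _, rfl⟩)⟩
    have hG : G.map (algebraMap (c i) ℂ) = g.1.map (algebraMap _ ℂ) := by
      ext p q
      rfl
    have hdet : G.det ≠ 0 := by
      intro h0
      have h1 : (G.map (algebraMap (c i) ℂ)).det = 0 := by
        have := (RingHom.map_det (algebraMap (c i) ℂ) G).symm
        rw [h0, map_zero] at this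
        exact this
      rw [hG] at h1
      have h2 : (g.1.map (algebraMap (⨆ i, c i : Subfield ℂ) ℂ)).det =
          algebraMap _ ℂ g.1.det := (RingHom.map_det (algebraMap _ ℂ) g.1).symm
      rw [h2, map_eq_zero] at h1
      have h3 := g.isUnit
      rw [Matrix.isUnit_iff_isUnit_det] at h3
      exact h3.ne_zero h1
    refine ⟨GeneralLinearGroup.mkOfDetNeZero G hdet, ?_⟩
    convert hg using 1
    apply Units.ext
    exact hG

/-- One system of equations. -/
theorem exists_step {K M : Subfield ℂ} (hM : Good X M) {m : ℕ}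
    (σ : Finset (MvPolynomial (Fin m) K)) :
    ∃ M' : Subfield ℂ, Good X M' ∧ M ≤ M' ∧
      ∀ F : Subfield ℂ, M' ≤ F → Good X F → Solvable σ F → Solvable σ M' := by
  by_cases h : ∃ F : Subfield ℂ, M ≤ F ∧ Good X F ∧ Solvable σ F
  · obtain ⟨F, hF1, hF2, hF3⟩ := h
    exact ⟨F, hF2, hF1, fun _ _ _ _ => hF3⟩
  · refine ⟨M, hM, le_rfl, fun F h1 h2 h3 => absurd ⟨F, h1, h2, h3⟩ h⟩

/-- All systems of equations over the given field. -/
theorem exists_closure {K : Subfield ℂ} (hK : Good X K) :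
    ∃ M : Subfield ℂ, Good X M ∧ K ≤ M ∧ ∀ F : Subfield ℂ, M ≤ F → Good X F →
      ∀ (m : ℕ) (σ : Finset (MvPolynomial (Fin m) K)), Solvable σ F → Solvable σ M := by
  classical
  have hKc : Countable K := hK.1
  have hcm : ∀ m, Countable (MvPolynomial (Fin m) K) := fun m => by
    rw [← Cardinal.mk_le_aleph0_iff]
    refine MvPolynomial.cardinalMk_le_max.trans ?_
    rw [max_le_iff, max_le_iff]
    exact ⟨⟨Cardinal.mk_le_aleph0_iff.2 hKc, Cardinal.mk_le_aleph0⟩, le_rfl⟩
  have hcs : Countable (Σ m, Finset (MvPolynomial (Fin m) K)) := inferInstance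
  have hne : Nonempty (Σ m, Finset (MvPolynomial (Fin m) K)) := ⟨⟨0, ∅⟩⟩
  obtain ⟨e, he⟩ := exists_surjective_nat (Σ m, Finset (MvPolynomial (Fin m) K))
  choose st h1 h2 h3 using fun (M : {M : Subfield ℂ // Good X M})
    (s : Σ m, Finset (MvPolynomial (Fin m) K)) => exists_step M.2 s.2
  let c : ℕ → {M : Subfield ℂ // Good X M} := fun i =>
    Nat.rec ⟨K, hK⟩ (fun i M => ⟨st M (e i), h1 M (e i)⟩) i
  have hc0 : (c 0).1 = K := rfl
  have hcS : ∀ i, (c (i + 1)).1 = st (c i) (e i) := fun i => rfl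
  have hmono : Monotone fun i => (c i).1 := monotone_nat_of_le_succ fun i => by
    rw [hcS]
    exact h2 _ _
  refine ⟨⨆ i, (c i).1, good_union hmono fun i => (c i).2, ?_, ?_⟩
  · exact le_iSup (fun i => (c i).1) 0
  · intro F hF hFg m σ hσ
    obtain ⟨i, hi⟩ := he ⟨m, σ⟩
    have h4 := h3 (c i) (e i) F (by
      rw [← hcS]
      exact (le_iSup (fun i => (c i).1) (i + 1)).trans hF) hFg
    rw [hi] at h4
    refine solvable_mono ?_ (h4 hσ)
    rw [← hi, ← hcS]
    exact le_iSup (fun i => (c i).1) (i + 1)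

/-- A system of equations over a smaller field. -/
theorem lift_system {K M : Subfield ℂ} {m : ℕ} (σ : Finset (MvPolynomial (Fin m) K))
    (h : ∀ f ∈ σ, ∀ s, ((MvPolynomial.coeff s f : K) : ℂ) ∈ M) :
    ∃ σ' : Finset (MvPolynomial (Fin m) M), ∀ F, Solvable σ' F ↔ Solvable σ F := by
  classical
  have h1 : ∀ f ∈ σ, ∃ f' : MvPolynomial (Fin m) M, ∀ a : Fin m → ℂ,
      MvPolynomial.aeval a f' = MvPolynomial.aeval a f := by
    intro f hf
    refine ⟨∑ s ∈ f.support, MvPolynomial.monomial s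
      (⟨((MvPolynomial.coeff s f : K) : ℂ), h f hf s⟩ : M), fun a => ?_⟩
    conv_rhs => rw [f.as_sum]
    rw [map_sum, map_sum]
    refine Finset.sum_congr rfl fun s _ => ?_
    rw [MvPolynomial.aeval_monomial, MvPolynomial.aeval_monomial]
    rfl
  choose! g hg using h1
  refine ⟨σ.image g, fun F => ?_⟩
  unfold Solvable
  refine exists_congr fun a => and_congr_right fun _ => ?_
  constructor
  · intro h2 f hf
    rw [← hg f hf]
    exact h2 _ (Finset.mem_image_of_mem _ hf)
  · intro h2 f hf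
    obtain ⟨f, hf', rfl⟩ := Finset.mem_image.1 hf
    rw [hg f hf']
    exact h2 f hf'

/-- Every good field is contained in a good field which is existentially closed in all good
extensions. -/
theorem exists_universal {K : Subfield ℂ} (hK : Good X K) :
    ∃ M : Subfield ℂ, Good X M ∧ K ≤ M ∧ Universal M X := by
  classical
  choose st h1 h2 h3 using fun (M : {M : Subfield ℂ // Good X M}) => exists_closure M.2
  let c : ℕ → {M : Subfield ℂ // Good X M} := fun i =>
    Nat.rec ⟨K, hK⟩ (fun _ M => ⟨st M, h1 M⟩) i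
  have hcS : ∀ i, (c (i + 1)).1 = st (c i) := fun i => rfl
  have hmono : Monotone fun i => (c i).1 := monotone_nat_of_le_succ fun i => by
    rw [hcS]
    exact h2 _
  refine ⟨⨆ i, (c i).1, good_union hmono fun i => (c i).2, le_iSup (fun i => (c i).1) 0, ?_⟩
  intro F hFc hF hFN m σ hσ hno
  by_contra hP
  apply hno
  obtain ⟨i, hi⟩ := mem_chain hmono
    (σ.biUnion fun f => f.support.image fun s =>
      ((MvPolynomial.coeff s f : (⨆ i, (c i).1 : Subfield ℂ)) : ℂ)) (by
    intro t ht
    obtain ⟨f, -, hf⟩ := Finset.mem_biUnion.1 ht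
    obtain ⟨s, -, rfl⟩ := Finset.mem_image.1 hf
    exact SetLike.coe_mem _)
  obtain ⟨σ', hσ'⟩ := lift_system (M := (c i).1) σ (by
    intro f hf s
    by_cases hs : s ∈ f.support
    · exact hi _ (Finset.mem_biUnion.2 ⟨f, hf, Finset.mem_image_of_mem _ hs⟩)
    · rw [MvPolynomial.notMem_support_iff.1 hs]
      exact zero_mem _)
  have h4 := h3 (c i) F (by
    rw [← hcS]
    exact (le_iSup (fun i => (c i).1) (i + 1)).trans hF) ⟨hFc, hFN, hP⟩ m σ'
    ((hσ' F).2 hσ)
  refine (hσ' _).1 (solvable_mono ?_ h4)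
  rw [← hcS]
  exact le_iSup (fun i => (c i).1) (i + 1)

end Pool.Agent.H884.EC
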