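import Mathlib
import Pool.Graph.R_pool_sql_team_seeded_3997aac3.Q226.SER.Defs

set_option autoImplicit false

/-!
# Universal torsors: definitions

All fields are subfields of the field of complex numbers. A `K`-form of the group scheme `H` inside
`GL_n`, and the torsors under it, are the subsets of `GL_n(ℂ)` of the form `x H(ℂ) x⁻¹` and
`y x H(ℂ) x⁻¹` which are stable under all automorphisms of `ℂ` over `K` (`Pts`, `coset`, `Stable`,
`TorsorsTrivial` of `Pool.Agent.Q226.SER`, for `k = K`, `E = ℂ`).
-/

namespace Pool.Agent.H884.EC

open Matrix Pool.Agent.Q226.SER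

/-- For all finite extensions `L` of `K` in `ℂ` and all central simple algebras over `L` the reduced
norm is surjective onto `L`. By the theorem of Merkurjev and Suslin this is the condition that the
cohomological dimension of `K` is at most two. -/
def Norms (K : Subfield ℂ) : Prop := ∀ N, NormsOnto N K ℂ

/-- The subset `X` of `GL_n(ℂ)` contains an element of `GL_n(F)`. -/
def Point {n : ℕ} (X : Set (GL (Fin n) ℂ)) (F : Subfield ℂ) : Prop :=
  ∃ g : GL (Fin n) F, GeneralLinearGroup.map (algebraMap F ℂ) g ∈ X

/-- The finite system `σ` of polynomial equations over `K` has a solution in the field `F`. -/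
def Solvable {K : Subfield ℂ} {m : ℕ} (σ : Finset (MvPolynomial (Fin m) K)) (F : Subfield ℂ) :
    Prop :=
  ∃ a : Fin m → ℂ, (∀ i, a i ∈ F) ∧ ∀ f ∈ σ, MvPolynomial.aeval a f = 0

/-- `X` is universal over `K`: every algebraic variety over `K` without `K`-points splits `X`, that
is, `X` has a point over every countable extension `F` of `K` in `ℂ`, with surjective reduced norms
(cohomological dimension at most two), over which a finite system of polynomial equations over `K`
without solutions in `K` has a solution. -/
def Universal {n : ℕ} (K : Subfield ℂ) (X : Set (GL (Fin n) ℂ)) : Prop :=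
  ∀ F : Subfield ℂ, Countable F → K ≤ F → Norms F →
    ∀ (m : ℕ) (σ : Finset (MvPolynomial (Fin m) K)), Solvable σ F → ¬ Solvable σ K → Point X F

end Pool.Agent.H884.EC
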