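import Pool.Agent.H884.EC.Defs
import Pool.Agent.H884.EC.Union

set_option autoImplicit false

/-!
# Algebraic extensions of a field with surjective reduced norms
-/

namespace Pool.Agent.H884.EC

open IntermediateField Pool.Agent.Q226.SER

/-- Finite extensions of a field with surjective reduced norms. -/
theorem norms_finite {M : Subfield ℂ} (h : Norms M) (L : IntermediateField M ℂ)
    (hL : Module.Finite M L) : Norms L.toSubfield := by
  intro N L' d hL' _ hd _ B hB c
  let L2 : IntermediateField M ℂ :=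
    L'.toSubfield.toIntermediateField (fun x => L'.algebraMap_mem ⟨x.1, L.algebraMap_mem x⟩)
  have hLL' : ∀ t ∈ L, t ∈ L2 := fun t ht => L'.algebraMap_mem ⟨t, ht⟩
  have h2 : Module.Finite M L2 := by
    obtain ⟨r, s, hs⟩ := Module.Finite.exists_fin (R := L.toSubfield) (M := L')
    obtain ⟨q, u, hu⟩ := Module.Finite.exists_fin (R := M) (M := L)
    refine ⟨⟨Finset.univ.image fun i : Fin r × Fin q =>
      (⟨(u i.2 : ℂ) * (s i.1 : ℂ), L2.mul_mem (hLL' _ (u i.2).2) (s i.1).2⟩ : L2), ?_⟩⟩
    rw [eq_top_iff]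
    intro x _
    have hx : (⟨(x : ℂ), x.2⟩ : L') ∈ Submodule.span L.toSubfield (Set.range s) := by
      rw [hs]
      trivial
    obtain ⟨c, hc⟩ := (Submodule.mem_span_range_iff_exists_fun _).1 hx
    have hcu : ∀ i, ∃ e : Fin q → M, ∑ j, e j • u j = (⟨(c i : ℂ), (c i).2⟩ : L) := by
      intro i
      rw [← Submodule.mem_span_range_iff_exists_fun, hu]
      trivial
    choose e he using hcu
    have hx2 : x = ∑ i, ∑ j, e i j •
        (⟨(u j : ℂ) * (s i : ℂ), L2.mul_mem (hLL' _ (u j).2) (s i).2⟩ : L2) := by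
      apply Subtype.ext
      have h3 := congrArg (fun z : L' => (z : ℂ)) hc
      simp only at h3
      rw [← h3]
      simp only [AddSubmonoidClass.coe_finsetSum]
      refine Finset.sum_congr rfl fun i _ => ?_
      have h4 := congrArg (fun z : L => (z : ℂ)) (he i)
      simp only [AddSubmonoidClass.coe_finsetSum] at h4
      change (c i : ℂ) * (s i : ℂ) = _
      rw [← h4, Finset.sum_mul]
      refine Finset.sum_congr rfl fun j _ => ?_
      change (e i j : ℂ) * (u j : ℂ) * (s i : ℂ) = (e i j : ℂ) * ((u j : ℂ) * (s i : ℂ))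
      ring
    rw [hx2]
    exact Submodule.sum_mem _ fun i _ => Submodule.sum_mem _ fun j _ =>
      Submodule.smul_mem _ _ (Submodule.subset_span (by
        rw [Finset.coe_image]
        exact ⟨(i, j), by simp, rfl⟩))
  obtain ⟨b, hb, hBb⟩ := hB
  have hspan : ∀ x : Matrix (Fin d) (Fin d) ℂ, x ∈ B ↔ ∃ γ : Fin d × Fin d → L',
      ∑ m, γ m • b m = x := by
    intro x
    rw [← Subalgebra.mem_toSubmodule, hBb, Submodule.mem_span_range_iff_exists_fun]
  let B2 : Subalgebra L2 (Matrix (Fin d) (Fin d) ℂ) :=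
    { carrier := B
      mul_mem' := fun ha hb => B.mul_mem ha hb
      add_mem' := fun ha hb => B.add_mem ha hb
      algebraMap_mem' := fun x => B.algebraMap_mem ⟨(x : ℂ), x.2⟩ }
  have hB2 : IsMatForm B2 := by
    refine ⟨b, hb, ?_⟩
    ext x
    rw [Subalgebra.mem_toSubmodule, Submodule.mem_span_range_iff_exists_fun]
    change x ∈ B ↔ _
    rw [hspan]
    constructor
    · rintro ⟨γ, hγ⟩
      exact ⟨fun m => ⟨(γ m : ℂ), (γ m).2⟩, hγ⟩
    · rintro ⟨γ, hγ⟩
      exact ⟨fun m => ⟨(γ m : ℂ), (γ m).2⟩, hγ⟩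
  obtain ⟨z, hz, hzc⟩ := h (max (Module.finrank M L2) d) L2 d h2 (le_max_left _ _) hd
    (le_max_right _ _) B2 hB2 ⟨(c : ℂ), c.2⟩
  exact ⟨z, hz, hzc⟩

/-- Algebraic extensions of a field with surjective reduced norms. -/
theorem norms_algebraic {M F : Subfield ℂ} (h : Norms M) (hMF : M ≤ F)
    (hF : ∀ t ∈ F, IsAlgebraic M t) : Norms F := by
  classical
  refine norms_directed fun T hT => ?_
  let L : IntermediateField M ℂ := adjoin M (T : Set ℂ)
  have hL : Module.Finite M L :=
    finiteDimensional_adjoin fun t ht => (hF t (hT t ht)).isIntegral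
  refine ⟨L.toSubfield, ?_, fun t ht => subset_adjoin M _ ht, norms_finite h L hL⟩
  change (adjoin M (T : Set ℂ)).toSubfield ≤ F
  rw [adjoin_toSubfield, Subfield.closure_le]
  rintro t (⟨s, rfl⟩ | ht)
  · exact hMF s.2
  · exact hT t ht

/-- Algebraic extensions of countable fields. -/
theorem countable_algebraic {M F : Subfield ℂ} (h : Countable M)
    (hF : ∀ t ∈ F, IsAlgebraic M t) : Countable F := by
  have h1 : {t : ℂ | IsAlgebraic M t}.Countable := Algebraic.countable M ℂ
  exact (h1.mono fun t ht => hF t ht : (F : Set ℂ).Countable)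

/-- A proper algebraic extension solves a polynomial equation. -/
theorem solvable_algebraic {M F : Subfield ℂ} (hMF : M ≤ F)
    (hF : ∀ t ∈ F, IsAlgebraic M t) (hne : F ≠ M) :
    ∃ σ : Finset (MvPolynomial (Fin 1) M), Solvable σ F ∧ ¬ Solvable σ M := by
  classical
  obtain ⟨t, ht, htM⟩ : ∃ t ∈ F, t ∉ M := by
    by_contra hcon
    push Not at hcon
    exact hne (le_antisymm (fun t ht => hcon t ht) hMF)
  have hev : ∀ (p : Polynomial M) (a : Fin 1 → ℂ),
      MvPolynomial.aeval a (Polynomial.aeval (MvPolynomial.X (0 : Fin 1)) p :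
        MvPolynomial (Fin 1) M) = Polynomial.aeval (a 0) p := by
    intro p a
    rw [← Polynomial.aeval_algHom_apply, MvPolynomial.aeval_X]
  refine ⟨{Polynomial.aeval (MvPolynomial.X (0 : Fin 1)) (minpoly M t)}, ⟨fun _ => t, fun _ => ht,
    fun f hf => ?_⟩, ?_⟩
  · rw [Finset.mem_singleton.1 hf, hev, minpoly.aeval]
  · rintro ⟨a, ha, h1⟩
    have h2 := h1 _ (Finset.mem_singleton_self _)
    rw [hev] at h2
    -- `a 0 ∈ M` is a root of the minimal polynomial of `t`
    have hint : IsIntegral M t := (hF t ht).isIntegral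
    have h3 : Polynomial.eval (⟨a 0, ha 0⟩ : M) (minpoly M t) = 0 := by
      apply (algebraMap M ℂ).injective
      rw [map_zero, ← Polynomial.aeval_algebraMap_apply_eq_algebraMap_eval]
      exact h2
    have h4 : (minpoly M t).degree = 1 :=
      Polynomial.degree_eq_one_of_irreducible_of_root (minpoly.irreducible hint) h3
    obtain ⟨s, hs⟩ := minpoly.mem_range_of_degree_eq_one M t h4
    apply htM
    rw [← hs]
    exact s.2

end Pool.Agent.H884.EC
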